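import Pool.Agent.Q181.BD.Stm2

set_option autoImplicit false

/-! Project BD (helper181), job ALL. -/

namespace Pool.Agent.Q175.BD

open Pool.Agent.Q181.BD

variable {V : Type} {W : V → V → ℤ} {c : ℝ}

theorem all_core2 (h2 : S_ll2) (h3 : S_tri) (hN : Net W c) (p q : ℤ → V) (hp : Line W p)
    (hq : Line W q) (hd : Dis p q) (hf : Free W p (q (-1))) (h0 : One W p (q 0) 0)
    (hone : One W p (q 1) 1) : False := by
  have hall := h2 V W c hN p q hp hq hd hf h0 hone
  refine h3 V W c hN p hp (fun k => q (1 + k)) (fun k i => hd i _) ?_ ?_ ⟨1, ?_⟩ ?_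
  · intro k l h
    have := hq.inj h
    omega
  · intro k l
    rw [hq.adj]
    omega
  · have := (hone 1).2 rfl
    simpa using this
  · intro k hk
    exact hall _ (by omega)

theorem all_core (h1 : S_ll1) (h2 : S_ll2) (h3 : S_tri) (hN : Net W c) (p q : ℤ → V)
    (hp : Line W p) (hq : Line W q) (hd : Dis p q) (hf : Free W p (q (-1)))
    (h0 : W (p 0) (q 0) ≠ 0) : False := by
  obtain ⟨ho, ho1 | ho1⟩ := h1 V W c hN p q hp hq hd hf h0
  · exact all_core2 h2 h3 hN p q hp hq hd hf ho ho1
  · exact all_core2 h2 h3 hN (fun k => p (-k)) q hp.rev hq (fun i j => hd _ _) hf.rev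
      (by simpa using ho.rev) (by simpa using ho1.rev)

theorem t_all : S_ll1 → S_ll2 → S_tri → S_all := by
  intro h1 h2 h3 V W c hN p q hp hq hd hex
  by_contra hcon
  push Not at hcon
  obtain ⟨s0, hs0⟩ := hcon
  obtain ⟨s1, hs1⟩ := hex
  -- a place where the status changes
  have hch : ∃ s, ¬ (Free W p (q s) ↔ Free W p (q (s + 1))) := by
    by_contra hno
    push Not at hno
    have hconst : ∀ s : ℤ, Free W p (q s) ↔ Free W p (q 0) := by
      intro s
      induction s using Int.induction_on with
      | zero => rfl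
      | succ n ih => rw [← hno]; exact ih
      | pred n ih =>
        have := hno (-(n : ℤ) - 1)
        rw [sub_add_cancel] at this
        rw [this]; exact ih
    exact hs1 ((hconst s1).2 ((hconst s0).1 hs0))
  obtain ⟨s, hs⟩ := hch
  have hcore : ∀ q' : ℤ → V, Line W q' → Dis p q' → Free W p (q' (-1)) → ¬ Free W p (q' 0) →
      False := by
    intro q' hq' hd' hf hnf
    unfold Free at hnf
    push Not at hnf
    obtain ⟨i, hi⟩ := hnf
    refine all_core h1 h2 h3 hN (fun k => p (k + i)) q' (hp.shift i) hq' (fun k j => hd' _ _)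
      (hf.shift i) ?_
    simpa using hi
  by_cases ha : Free W p (q s)
  · have hb : ¬ Free W p (q (s + 1)) := fun hb => hs ⟨fun _ => hb, fun _ => ha⟩
    refine hcore (fun k => q (k + (s + 1))) (hq.shift _) (fun i j => hd _ _) ?_ ?_
    · show Free W p (q (-1 + (s + 1)))
      rwa [show -1 + (s + 1) = s by ring]
    · show ¬ Free W p (q (0 + (s + 1)))
      rwa [zero_add]
  · have hb : Free W p (q (s + 1)) := by
      by_contra hb
      exact hs ⟨fun h => absurd h ha, fun h => absurd h hb⟩
    have hq' : Line W (fun k => q (-k + s)) := (hq.shift s).rev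
    refine hcore (fun k => q (-k + s)) hq' (fun i j => hd _ _) ?_ ?_
    · show Free W p (q (-(-1) + s))
      rwa [show -(-1) + s = s + 1 by ring]
    · show ¬ Free W p (q (-0 + s))
      rwa [neg_zero, zero_add]

end Pool.Agent.Q175.BD
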