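import Pool.Agent.Q181.BD.Stm2

set_option autoImplicit false

/-! Project BD (helper181): common lemmas. -/

namespace Pool.Agent.Q175.BD

open Pool.Agent.Q181.BD

variable {V : Type} {W : V → V → ℤ} {c : ℝ} {p : ℤ → V}

/-- the two possibilities for a vertex attached to a line -/
theorem nbr_cases (h2 : S_two) (hN : Net W c) (hp : Line W p) {u : V} (hoff : Off p u)
    (hne : ∃ i, W (p i) u ≠ 0) : (∃ b, One W p u b) ∨ (∃ a, Two W p u a) := by
  obtain ⟨i0, hi0⟩ := hne
  have hex2 : ∃ i, W (p i) u ≠ 0 ∧ ∀ k, W (p k) u ≠ 0 → k = i ∨ k = i + 2 := by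
    by_cases h : ∃ j, W (p j) u ≠ 0 ∧ j < i0
    · obtain ⟨j, hj, hlt⟩ := h
      refine ⟨j, hj, fun k hk => ?_⟩
      rcases le_total j k with h' | h'
      · exact h2 V W c hN p hp _ j k hoff hj hk h'
      · have e1 := h2 V W c hN p hp _ j i0 hoff hj hi0 hlt.le
        have e2 := h2 V W c hN p hp _ k j hoff hk hj h'
        have e3 := h2 V W c hN p hp _ k i0 hoff hk hi0 (h'.trans hlt.le)
        omega
    · refine ⟨i0, hi0, fun k hk => ?_⟩
      have : i0 ≤ k := by
        by_contra hlt
        exact h ⟨k, hk, by omega⟩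
      exact h2 V W c hN p hp _ i0 k hoff hi0 hk this
  obtain ⟨i, hi, hmax⟩ := hex2
  by_cases hs : W (p (i + 2)) u ≠ 0
  · refine Or.inr ⟨i + 1, fun k => ⟨fun h => ?_, ?_⟩⟩
    · have := hmax k h
      omega
    · rintro (h | h)
      · rw [h, show i + 1 - 1 = i by ring]
        exact hi
      · rw [h, show i + 1 + 1 = i + 2 by ring]
        exact hs
  · refine Or.inl ⟨i, fun k => ⟨fun h => ?_, ?_⟩⟩
    · rcases hmax k h with h' | h'
      · exact h'
      · rw [h'] at h
        exact absurd h hs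
    · rintro rfl
      exact hi

/-- a part of a disjoint line is an arm -/
theorem arm_line {q : ℤ → V} (hq : Line W q) (hd : Dis p q) (a : ℤ) (n : ℕ) :
    Arm W p n (fun k => q (a + k)) where
  off := fun k _ _ i => hd i _
  inj := fun k l _ _ _ _ h => by
    have := hq.inj h
    omega
  adj := fun k l _ _ _ _ => by
    rw [hq.adj]
    omega

/-- a part of a disjoint line is an arm (reversed) -/
theorem arm_line_rev {q : ℤ → V} (hq : Line W q) (hd : Dis p q) (a : ℤ) (n : ℕ) :
    Arm W p n (fun k => q (a - k)) where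
  off := fun k _ _ i => hd i _
  inj := fun k l _ _ _ _ h => by
    have := hq.inj h
    omega
  adj := fun k l _ _ _ _ => by
    rw [hq.adj]
    omega

/-- a single vertex is an arm -/
theorem arm_one (hN : Net W c) {u : V} (hoff : Off p u) : Arm W p 1 (fun _ => u) where
  off := fun _ _ _ => hoff
  inj := fun k l _ _ _ _ _ => by omega
  adj := fun k l _ _ _ _ => by
    simp only [hN.loop, ne_eq, not_true_eq_false, false_iff]
    omega

theorem Dis.symm {q : ℤ → V} (h : Dis p q) : Dis q p := fun i j e => h j i e.symm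

theorem Dis.shift {q : ℤ → V} (h : Dis p q) (a b : ℤ) :
    Dis (fun k => p (k + a)) (fun k => q (k + b)) := fun _ _ => h _ _

/-- the line with one vertex replaced -/
theorem sub_one (hs : S_sub) (hN : Net W c) (hp : Line W p) {u : V} {a : ℤ} (hoff : Off p u)
    (h : Two W p u a) : Line W (sur p (a - 1) (a + 1) 1 (fun _ => u)) := by
  refine hs V W hN.symm p hp (a - 1) (a + 1) 1 _ (by omega) le_rfl (arm_one hN hoff) ?_
  intro k i hk1 hk2 hi
  rw [h i]
  omega

/-- the values of the line with one vertex replaced -/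
theorem sub_one_self (p : ℤ → V) (u : V) (a : ℤ) : sur p (a - 1) (a + 1) 1 (fun _ => u) a = u := by
  have := sur_mid p (a - 1) (a + 1) 1 (fun _ => u) 1 le_rfl le_rfl
  rwa [show a - 1 + ((1 : ℕ) : ℤ) = a by push_cast; ring] at this

theorem sub_one_ne (p : ℤ → V) (u : V) (a : ℤ) {i : ℤ} (hi : i ≠ a) :
    sur p (a - 1) (a + 1) 1 (fun _ => u) i = p i := by
  rcases lt_or_gt_of_ne hi with h | h
  · exact sur_le _ _ _ _ _ _ (by omega)
  · have := sur_ge p (a - 1) (a + 1) 1 (fun _ => u) i (by omega)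
    rwa [show i - (a + 1) + (a - 1) + ((1 : ℕ) : ℤ) + 1 = i by push_cast; ring] at this

theorem Off.sub_one {u v : V} (hv : Off p v) (a : ℤ) (huv : u ≠ v) :
    Off (sur p (a - 1) (a + 1) 1 (fun _ => u)) v := by
  intro i
  by_cases h : i = a
  · rw [h, sub_one_self]
    exact huv
  · rw [sub_one_ne p u a h]
    exact hv i

end Pool.Agent.Q175.BD
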