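import Pool.Agent.Q175.BD.Com

set_option autoImplicit false

/-! Project BD (helper181), job CONN: connected lines are adjacent. -/

namespace Pool.Agent.Q175.BD

open Pool.Agent.Q181.BD

variable {V : Type} {W : V → V → ℤ} {c : ℝ}

/-- a chain from the line `p` to the line `q` -/
def Ch (W : V → V → ℤ) (p q : ℤ → V) (m : ℕ) (z : ℕ → V) : Prop :=
  (∃ i, p i = z 0) ∧ (∃ j, q j = z m) ∧ ∀ k, k < m → W (z k) (z (k + 1)) ≠ 0

theorem chain_of_conn {u v : V} (h : Conn W u v) : ∃ (m : ℕ) (z : ℕ → V), z 0 = u ∧ z m = v ∧
    ∀ k, k < m → W (z k) (z (k + 1)) ≠ 0 := by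
  unfold Conn at h
  induction h with
  | refl => exact ⟨0, fun _ => u, rfl, rfl, fun k hk => absurd hk (by omega)⟩
  | @tail b d _ hbd ih =>
    obtain ⟨m, z, h0, hm, hz⟩ := ih
    refine ⟨m + 1, fun k => if k ≤ m then z k else d, ?_, ?_, ?_⟩
    · simp [h0]
    · simp
    · intro k hk
      dsimp only
      rw [if_pos (by omega)]
      rcases Nat.lt_or_ge k m with h | h
      · rw [if_pos (by omega)]
        exact hz k h
      · have : k = m := by omega
        subst this
        rw [if_neg (by omega), hm]
        exact hbd

theorem t_conn : S_two → S_tri → S_conn := by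
  intro h2 h3 V W c hN p q hp hq hd hconn
  by_contra hcon
  push Not at hcon
  have hex : ∃ m, ∃ z, Ch W p q m z := by
    obtain ⟨m, z, h0, hm, hz⟩ := chain_of_conn hconn
    exact ⟨m, z, ⟨0, h0.symm⟩, ⟨0, hm.symm⟩, hz⟩
  classical
  obtain ⟨z, ⟨i0, hi0⟩, ⟨j0, hj0⟩, hz⟩ := Nat.find_spec hex
  have hmin : ∀ m z, Ch W p q m z → Nat.find hex ≤ m := fun m z h => Nat.find_min' hex ⟨z, h⟩
  set m := Nat.find hex with hm
  clear_value m
  clear hm
  -- `2 ≤ m`
  have hm2 : 2 ≤ m := by
    rcases Nat.eq_zero_or_pos m with h | h
    · subst h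
      exact absurd (hi0.trans hj0.symm) (hd _ _)
    · rcases Nat.eq_or_lt_of_le h with h | h
      · exfalso
        have h' : m = 1 := by omega
        subst h'
        have := hz 0 (by norm_num)
        rw [zero_add, ← hi0, ← hj0] at this
        exact this (hcon j0 i0)
      · omega
  -- off `p`
  have offp : ∀ k, 1 ≤ k → Off p (z k) ∨ m < k := by
    intro k hk
    by_contra hne
    push Not at hne
    obtain ⟨h1, h2⟩ := hne
    unfold Off at h1
    push Not at h1
    obtain ⟨i, hi⟩ := h1
    have := hmin (m - k) (fun l => z (k + l)) ⟨⟨i, hi⟩, ⟨j0, by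
      dsimp only
      rw [Nat.add_sub_cancel' h2, hj0]⟩, fun l hl => by
        dsimp only
        exact hz (k + l) (by omega)⟩
    omega
  have offq : ∀ k, k < m → Off q (z k) := by
    intro k hk i hi
    have := hmin k z ⟨⟨i0, hi0⟩, ⟨i, hi⟩, fun l hl => hz l (by omega)⟩
    omega
  -- not adjacent to `p`
  have frp : ∀ k, 2 ≤ k → k < m → Free W p (z k) := by
    intro k hk hkm i
    by_contra hne
    have := hmin (m - k + 1) (fun l => if l = 0 then p i else z (k + l - 1)) ⟨⟨i, by simp⟩,
      ⟨j0, by
        dsimp only
        rw [if_neg (by omega), show k + (m - k + 1) - 1 = m by omega, hj0]⟩, fun l hl => by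
        dsimp only
        rw [if_neg (Nat.succ_ne_zero l)]
        by_cases h : l = 0
        · rw [if_pos h, h]
          simpa using hne
        · rw [if_neg h, show k + (l + 1) - 1 = (k + l - 1) + 1 by omega]
          exact hz _ (by omega)⟩
    omega
  have frq : ∀ k, k + 2 ≤ m → Free W q (z k) := by
    intro k hk i
    by_contra hne
    have := hmin (k + 1) (fun l => if l ≤ k then z l else q i) ⟨⟨i0, by simpa using hi0⟩,
      ⟨i, by simp⟩, fun l hl => by
        dsimp only
        rw [if_pos (by omega)]
        rcases Nat.lt_or_ge l k with h | h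
        · rw [if_pos (by omega)]
          exact hz _ (by omega)
        · have : l = k := by omega
          subst this
          rw [if_neg (by omega), hN.symm]
          exact hne⟩
    omega
  -- different
  have hne : ∀ k l, k < l → l ≤ m → z k ≠ z l := by
    intro k l hkl hlm he
    have := hmin (m - (l - k)) (fun i => if i ≤ k then z i else z (i + (l - k)))
      ⟨⟨i0, by simpa using hi0⟩, ⟨j0, by
        dsimp only
        by_cases h : m - (l - k) ≤ k
        · have : l = m := by omega
          rw [if_pos h, show m - (l - k) = k by omega, he, this, hj0]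
        · rw [if_neg h, show m - (l - k) + (l - k) = m by omega, hj0]⟩, fun i hi => by
        dsimp only
        rcases Nat.lt_trichotomy i k with h | h | h
        · rw [if_pos (by omega), if_pos (by omega)]
          exact hz _ (by omega)
        · subst h
          rw [if_pos le_rfl, if_neg (by omega), he, show i + 1 + (l - i) = l + 1 by omega]
          exact hz _ (by omega)
        · rw [if_neg (by omega), if_neg (by omega), show i + 1 + (l - k) = i + (l - k) + 1 by omega]
          exact hz _ (by omega)⟩
    omega
  have hna : ∀ k l, k + 1 < l → l ≤ m → W (z k) (z l) = 0 := by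
    intro k l hkl hlm
    by_contra he
    have := hmin (m - (l - k - 1)) (fun i => if i ≤ k then z i else z (i + (l - k - 1)))
      ⟨⟨i0, by simpa using hi0⟩, ⟨j0, by
        dsimp only
        rw [if_neg (by omega), show m - (l - k - 1) + (l - k - 1) = m by omega, hj0]⟩,
        fun i hi => by
        dsimp only
        rcases Nat.lt_trichotomy i k with h | h | h
        · rw [if_pos (by omega), if_pos (by omega)]
          exact hz _ (by omega)
        · subst h
          rw [if_pos le_rfl, if_neg (by omega), show i + 1 + (l - i - 1) = l by omega]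
          exact he
        · rw [if_neg (by omega), if_neg (by omega),
            show i + 1 + (l - k - 1) = i + (l - k - 1) + 1 by omega]
          exact hz _ (by omega)⟩
    omega
  -- the last neighbour on `q`
  obtain ⟨b, hb, hbmax⟩ : ∃ b, W (q b) (z (m - 1)) ≠ 0 ∧ ∀ k, W (q k) (z (m - 1)) ≠ 0 → k ≤ b := by
    have h1 : W (q j0) (z (m - 1)) ≠ 0 := by
      rw [hN.symm, hj0]
      have := hz (m - 1) (by omega)
      rwa [show m - 1 + 1 = m by omega] at this
    rcases nbr_cases h2 hN hq (offq (m - 1) (by omega)) ⟨j0, h1⟩ with ⟨b, hb⟩ | ⟨a, ha⟩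
    · exact ⟨b, (hb b).2 rfl, fun k hk => ((hb k).1 hk).le⟩
    · refine ⟨a + 1, (ha _).2 (Or.inr rfl), fun k hk => ?_⟩
      have := (ha k).1 hk
      omega
  -- the path
  have hzz : ∀ k l, k < m → l < m → (W (z k) (z l) ≠ 0 ↔ (l = k + 1 ∨ k = l + 1)) := by
    intro k l hk hl
    constructor
    · intro h
      by_contra hno
      push Not at hno
      rcases Nat.lt_trichotomy k l with h' | h' | h'
      · exact h (hna k l (by omega) hl.le)
      · rw [h'] at h
        exact h (hN.loop _)
      · rw [hN.symm] at h
        exact h (hna l k (by omega) hk.le)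
    · rintro (rfl | rfl)
      · exact hz _ hk
      · rw [hN.symm]
        exact hz _ hl
  have hzq : ∀ (k : ℕ) (l : ℤ), k < m → 0 ≤ l → (W (z k) (q (b + l)) ≠ 0 ↔ (k = m - 1 ∧ l = 0)) := by
    intro k l hk hl
    rw [hN.symm]
    constructor
    · intro h
      have h1 : k = m - 1 := by
        by_contra hne
        exact h (frq k (by omega) _)
      subst h1
      have := hbmax _ h
      exact ⟨rfl, by omega⟩
    · rintro ⟨rfl, rfl⟩
      rw [add_zero]
      exact hb
  refine h3 V W c hN p hp (fun k => if k ≤ m - 2 then z (k + 1) else q (b + ((k : ℤ) - (m - 1))))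
    ?_ ?_ ?_ ⟨i0, ?_⟩ ?_
  · intro k
    split_ifs with h
    · rcases offp (k + 1) (by omega) with h' | h'
      · exact h'
      · omega
    · exact fun i => hd i _
  · intro k l hkl
    dsimp only at hkl
    split_ifs at hkl with h1 h2 h2
    · by_contra hne'
      rcases Nat.lt_or_ge k l with h | h
      · exact hne (k + 1) (l + 1) (by omega) (by omega) hkl
      · exact hne (l + 1) (k + 1) (by omega) (by omega) hkl.symm
    · exact absurd hkl.symm (offq _ (by omega) _)
    · exact absurd hkl (offq _ (by omega) _)
    · have := hq.inj hkl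
      omega
  · intro k l
    split_ifs with h1 h2 h2
    · rw [hzz _ _ (by omega) (by omega)]
      omega
    · rw [hzq _ _ (by omega) (by omega)]
      omega
    · rw [hN.symm, hzq _ _ (by omega) (by omega)]
      omega
    · rw [hq.adj]
      omega
  · rw [if_pos (by omega), hi0]
    exact hz 0 (by omega)
  · intro k hk
    split_ifs with h
    · exact frp _ (by omega) (by omega)
    · exact hcon _

end Pool.Agent.Q175.BD
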