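import Pool.Agent.Q181.BD.Stm3
import Pool.Agent.TH57.Thr.Growth

set_option autoImplicit false

/-! Project BD (helper181), job GEO: periodic paths contain lines. -/

namespace Pool.Agent.Q175.BD

open Pool.Agent.Q181.BD TH57.Thr

theorem bl_fin {V : Type} {Γ : SimpleGraph V} (hΓ : Γ.Connected)
    (hfin : ∀ v, (Γ.neighborSet v).Finite) (v : V) (r : ℕ) : (bl Γ v r).Finite := by
  induction r with
  | zero =>
    refine (Set.finite_singleton v).subset ?_
    intro u hu
    have : Γ.dist v u ≤ 0 := hu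
    exact ((hΓ.dist_eq_zero_iff).1 (Nat.le_zero.1 this)).symm
  | succ r ih =>
    refine (ih.union (ih.biUnion (fun u _ => hfin u))).subset ?_
    intro w hw
    have hw' : Γ.dist v w ≤ r + 1 := hw
    rcases Nat.lt_or_ge (Γ.dist v w) (r + 1) with h | h
    · left
      exact Nat.lt_succ_iff.1 h
    · right
      obtain ⟨p, hp0, hpk, hp⟩ := exists_geod hΓ v w
      have hd : Γ.dist v w = r + 1 := le_antisymm hw' h
      rw [hd] at hpk hp
      rw [Set.mem_iUnion₂]
      refine ⟨p r, ?_, ?_⟩
      · change Γ.dist v (p r) ≤ r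
        rw [← hp0, hp 0 r (by omega) (by omega)]
        omega
      · change Γ.Adj (p r) w
        rw [← hpk, ← SimpleGraph.dist_eq_one_iff_adj, hp r (r + 1) (by omega) (by omega)]
        omega

/-- A connected locally finite graph on the integers which is invariant under a translation contains
a bi-infinite geodesic. -/
theorem exists_biinf (Γ : SimpleGraph ℤ) (hΓ : Γ.Connected) (hfin : ∀ v, (Γ.neighborSet v).Finite)
    (M : ℤ) (hM : 1 ≤ M) (hinv : ∀ (t a b : ℤ), Γ.dist (a + M * t) (b + M * t) = Γ.dist a b) :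
    ∃ g : ℤ → ℤ, ∀ i j, Γ.dist (g i) (g j) = (i - j).natAbs := by
  -- geodesics of every length with the middle point in `[0, M)`
  have step : ∀ N : ℕ, ∃ g : ℤ → ℤ, 0 ≤ g 0 ∧ g 0 < M ∧ ∀ i j : ℤ, i.natAbs ≤ N → j.natAbs ≤ N →
      Γ.dist (g i) (g j) = (i - j).natAbs := by
    intro N
    obtain ⟨b, hb⟩ : ∃ b, 2 * N < Γ.dist 0 b := by
      by_contra hno
      push Not at hno
      have h1 : (Set.univ : Set ℤ).Finite := (bl_fin hΓ hfin 0 (2 * N)).subset (fun b _ => hno b)
      exact Set.infinite_univ h1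
    obtain ⟨γ, _, _, hγ⟩ := exists_geod hΓ 0 b
    refine ⟨fun i => γ (N + i).toNat + M * (-(γ N / M)), ?_, ?_, ?_⟩
    · have h1 : (((N : ℤ) + 0).toNat) = N := by omega
      simp only [h1]
      have := Int.emod_nonneg (γ N) (show M ≠ 0 by omega)
      have h2 := Int.emod_add_mul_ediv (γ N) M
      nlinarith
    · have h1 : (((N : ℤ) + 0).toNat) = N := by omega
      simp only [h1]
      have := Int.emod_lt_of_pos (γ N) (show 0 < M by omega)
      have h2 := Int.emod_add_mul_ediv (γ N) M
      nlinarith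
    · intro i j hi hj
      simp only [hinv]
      rw [hγ _ _ (by omega) (by omega)]
      omega
  choose g h0 h1 hg using step
  -- the values are in finite sets
  set B : ℤ → Set ℤ := fun i => ⋃ a ∈ Set.Ico (0 : ℤ) M, bl Γ a i.natAbs with hB
  have hBfin : ∀ i, (B i).Finite := fun i =>
    (Set.finite_Ico (0 : ℤ) M).biUnion (fun a _ => bl_fin hΓ hfin a _)
  have hmem : ∀ (i : ℤ) (N : ℕ), i.natAbs ≤ N → g N i ∈ B i := by
    intro i N hN
    rw [hB, Set.mem_iUnion₂]
    refine ⟨g N 0, ⟨h0 N, h1 N⟩, ?_⟩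
    change Γ.dist (g N 0) (g N i) ≤ i.natAbs
    rw [hg N 0 i (by simp) hN]
    omega
  -- the limit along an ultrafilter
  set U : Ultrafilter ℕ := Filter.hyperfilter ℕ with hU
  have hev : ∀ n : ℕ, ∀ᶠ N in (U : Filter ℕ), n ≤ N := by
    intro n
    have : (U : Filter ℕ) ≤ Filter.atTop := by
      rw [hU, ← Nat.cofinite_eq_atTop]
      exact Filter.hyperfilter_le_cofinite
    exact this (Filter.eventually_ge_atTop n)
  have hlim : ∀ i, ∃ a, ∀ᶠ N in (U : Filter ℕ), g N i = a := by
    intro i
    have h2 : ∀ᶠ N in (U : Filter ℕ), ∃ a ∈ B i, g N i = a :=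
      (hev i.natAbs).mono (fun N hN => ⟨g N i, hmem i N hN, rfl⟩)
    rw [Ultrafilter.eventually_exists_mem_iff (hBfin i)] at h2
    obtain ⟨a, _, ha⟩ := h2
    exact ⟨a, ha⟩
  choose G hG using hlim
  refine ⟨G, fun i j => ?_⟩
  have h2 := (((hG i).and (hG j)).and ((hev i.natAbs).and (hev j.natAbs)))
  obtain ⟨N, ⟨hi, hj⟩, hi', hj'⟩ := h2.exists
  rw [← hi, ← hj]
  exact hg N i j hi' hj'

theorem t_geo : S_geo := by
  intro V W hsymm hloop hfin T hT z L hL hz hadj hTz
  set Γ : SimpleGraph ℤ := { Adj := fun a b => W (z a) (z b) ≠ 0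
                             symm := ⟨fun a b h => by rw [hsymm]; exact h⟩
                             loopless := ⟨fun a h => h (hloop _)⟩ } with hΓdef
  have hΓadj : ∀ a b, Γ.Adj a b ↔ W (z a) (z b) ≠ 0 := fun a b => Iff.rfl
  have hreach : ∀ (a : ℤ) (n : ℕ), Γ.Reachable a (a + n) := by
    intro a n
    induction n with
    | zero => simp
    | succ n ih =>
      refine ih.trans (SimpleGraph.Adj.reachable ?_)
      rw [hΓadj]
      have := hadj (a + n)
      push_cast
      rwa [← add_assoc]
  have hconn : Γ.Connected := by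
    have : Nonempty ℤ := ⟨0⟩
    refine SimpleGraph.Connected.mk ?_
    intro a b
    rcases le_total a b with h | h
    · have := hreach a (b - a).toNat
      rwa [show a + ((b - a).toNat : ℤ) = b by omega] at this
    · have := hreach b (a - b).toNat
      rw [show b + ((a - b).toNat : ℤ) = a by omega] at this
      exact this.symm
  have hnf : ∀ v, (Γ.neighborSet v).Finite := by
    intro v
    refine ((hfin (z v)).preimage hz.injOn).subset ?_
    intro b hb
    exact hb
  -- translation
  have htr1 : ∀ a b : ℤ, Γ.Adj (a + 2 * L) (b + 2 * L) ↔ Γ.Adj a b := by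
    intro a b
    rw [hΓadj, hΓadj, ← hTz, ← hTz, hT]
  have htr : ∀ (t a b : ℤ), Γ.Adj (a + 2 * L * t) (b + 2 * L * t) ↔ Γ.Adj a b := by
    intro t
    induction t using Int.induction_on with
    | zero => intro a b; simp
    | succ n ih =>
      intro a b
      rw [show a + 2 * (L : ℤ) * (n + 1) = a + 2 * L * n + 2 * L by ring,
        show b + 2 * (L : ℤ) * (n + 1) = b + 2 * L * n + 2 * L by ring, htr1, ih]
    | pred n ih =>
      intro a b
      rw [← ih a b, ← htr1]
      rw [show a + 2 * (L : ℤ) * (-n - 1) + 2 * L = a + 2 * L * (-n) by ring,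
        show b + 2 * (L : ℤ) * (-n - 1) + 2 * L = b + 2 * L * (-n) by ring]
  have hinv : ∀ (t a b : ℤ), Γ.dist (a + 2 * L * t) (b + 2 * L * t) = Γ.dist a b := by
    intro t a b
    have hle : ∀ (t a b : ℤ), Γ.dist (a + 2 * L * t) (b + 2 * L * t) ≤ Γ.dist a b := by
      intro t a b
      obtain ⟨w, hw⟩ := hconn.exists_walk_length_eq_dist a b
      let f : Γ →g Γ := { toFun := fun x => x + 2 * L * t
                          map_rel' := fun {x y} h => (htr t x y).2 h }
      have := SimpleGraph.dist_le (w.map f)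
      rw [SimpleGraph.Walk.length_map, hw] at this
      exact this
    refine le_antisymm (hle t a b) ?_
    have := hle (-t) (a + 2 * L * t) (b + 2 * L * t)
    rwa [show a + 2 * (L : ℤ) * t + 2 * L * (-t) = a by ring,
      show b + 2 * (L : ℤ) * t + 2 * L * (-t) = b by ring] at this
  obtain ⟨g, hg⟩ := exists_biinf Γ hconn hnf (2 * L) (by omega) hinv
  refine ⟨fun i => z (g i), ⟨?_, ?_⟩, fun i => ⟨g i, rfl⟩⟩
  · intro i j h
    have h1 : g i = g j := hz h
    have h2 := hg i j
    rw [h1, SimpleGraph.dist_self] at h2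
    omega
  · intro i j
    show W (z (g i)) (z (g j)) ≠ 0 ↔ _
    rw [← hΓadj, ← SimpleGraph.dist_eq_one_iff_adj, hg]
    omega

end Pool.Agent.Q175.BD
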