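import Pool.Agent.Q175.BD.Com

set_option autoImplicit false

/-! Project BD (helper181), job LAD. -/

namespace Pool.Agent.Q175.BD

open Pool.Agent.Q181.BD

variable {V : Type} {W : V → V → ℤ} {c : ℝ}

theorem lad_step (hs : S_sub) (h2 : S_two) (h3 : S_out) (hN : Net W c) (p q : ℤ → V)
    (hp : Line W p) (hq : Line W q) (hd : Dis p q) (a : ℤ → ℤ) (ha : ∀ s, Two W p (q s) (a s))
    (s : ℤ) : (a (s + 1) = a s + 1 ∧ a (s - 1) = a s - 1) ∨
      (a (s + 1) = a s - 1 ∧ a (s - 1) = a s + 1) := by
  set P := sur p (a s - 1) (a s + 1) 1 (fun _ => q s) with hP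
  have hL : Line W P := sub_one hs hN hp (fun i => hd i _) (ha s)
  have hPs : P (a s) = q s := sub_one_self p (q s) (a s)
  have hPn : ∀ i, i ≠ a s → P i = p i := fun i hi => sub_one_ne p (q s) (a s) hi
  have hoff : ∀ t, t ≠ s → Off P (q t) := fun t ht =>
    Off.sub_one (fun i => hd i _) (a s) (fun h => ht (hq.inj h).symm)
  have key : ∀ t, (t = s + 1 ∨ s = t + 1) → W (P (a s)) (q t) ≠ 0 := by
    intro t ht
    rw [hPs, hq.adj]
    exact ht
  have up : ∀ t, (t = s + 1 ∨ s = t + 1) → W (P (a s + 2)) (q t) ≠ 0 → a t = a s + 1 := by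
    intro t ht h
    rw [hPn _ (by omega)] at h
    have h1 := (ha t _).1 h
    rcases h1 with h1 | h1
    · exfalso
      have h4 : W (P (a s + 4)) (q t) ≠ 0 := by
        rw [hPn _ (by omega)]
        exact (ha t _).2 (Or.inr (by omega))
      have := h2 V W c hN P hL (q t) _ _ (hoff t (by omega)) (key t ht) h4 (by omega)
      omega
    · omega
  have dn : ∀ t, (t = s + 1 ∨ s = t + 1) → W (P (a s - 2)) (q t) ≠ 0 → a t = a s - 1 := by
    intro t ht h
    rw [hPn _ (by omega)] at h
    have h1 := (ha t _).1 h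
    rcases h1 with h1 | h1
    · omega
    · exfalso
      have h4 : W (P (a s - 4)) (q t) ≠ 0 := by
        rw [hPn _ (by omega)]
        exact (ha t _).2 (Or.inl (by omega))
      have := h2 V W c hN P hL (q t) _ _ (hoff t (by omega)) h4 (key t ht) (by omega)
      omega
  have hne : q (s + 1) ≠ q (s - 1) := fun h => by
    have := hq.inj h
    omega
  obtain ⟨hd1, hu1⟩ := h3 V W c hN P hL (a s) (q (s + 1)) (q (s - 1)) hne (hoff _ (by omega))
    (hoff _ (by omega)) (key _ (Or.inl rfl)) (key _ (Or.inr (by ring)))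
  rcases hd1 with h | h <;> rcases hu1 with h' | h'
  · have e1 := dn _ (Or.inl rfl) h
    have e2 := up _ (Or.inl rfl) h'
    omega
  · exact Or.inr ⟨dn _ (Or.inl rfl) h, up _ (Or.inr (by ring)) h'⟩
  · exact Or.inl ⟨up _ (Or.inl rfl) h', dn _ (Or.inr (by ring)) h⟩
  · have e1 := dn _ (Or.inr (by ring)) h
    have e2 := up _ (Or.inr (by ring)) h'
    omega

theorem t_lad : S_sub → S_two → S_out → S_lad := by
  intro hs h2 h3 V W c hN p q hp hq hd hall
  choose a ha using hall
  have hstep := lad_step hs h2 h3 hN p q hp hq hd a ha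
  have hdiff : ∀ s, a (s + 1) - a s = a 1 - a 0 := by
    intro s
    induction s using Int.induction_on with
    | zero => norm_num
    | succ n ih =>
      have h1 := hstep ((n : ℤ) + 1)
      rw [show (n : ℤ) + 1 - 1 = n by ring] at h1
      omega
    | pred n ih =>
      have h1 := hstep (-(n : ℤ))
      rw [show -(n : ℤ) - 1 + 1 = -(n : ℤ) by ring]
      omega
  have hval : ∀ s, a s = a 0 + (a 1 - a 0) * s := by
    intro s
    induction s using Int.induction_on with
    | zero => ring
    | succ n ih =>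
      have := hdiff n
      linear_combination this + ih
    | pred n ih =>
      have := hdiff (-(n : ℤ) - 1)
      rw [show -(n : ℤ) - 1 + 1 = -(n : ℤ) by ring] at this
      linear_combination ih - this
  refine ⟨a 1 - a 0, a 0, ?_, fun s => ?_⟩
  · have := hstep 0
    rw [zero_add] at this
    omega
  · rw [← hval]
    exact ha s

end Pool.Agent.Q175.BD
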