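import Pool.Agent.Q175.BD.Com

set_option autoImplicit false

/-! Project BD (helper181), job TOR: two connected disjoint lines. -/

namespace Pool.Agent.Q175.BD

open Pool.Agent.Q181.BD

variable {V : Type} {W : V → V → ℤ} {c : ℝ}

theorem one_le_sq_int {a : ℤ} (h : a ≠ 0) : 1 ≤ a ^ 2 := by
  have h1 : 0 < a ^ 2 := by positivity
  omega

theorem pm_of_sq {a : ℤ} (h : a ^ 2 ≤ 1) (h0 : a ≠ 0) : a = 1 ∨ a = -1 := by
  have h1 : -1 ≤ a := by nlinarith
  have h2 : a ≤ 1 := by nlinarith
  omega

section lev

variable {v : Bool → ℤ → V}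

theorem lev_sum [DecidableEq V] (hinj : ∀ b i b' j, v b i = v b' j → b = b' ∧ i = j) (i : ℤ)
    (f : V → ℤ) :
    ∑ x ∈ ({v true (i + 1), v false (i + 1), v true (i - 1), v false (i - 1)} : Finset V), f x =
      f (v true (i + 1)) + f (v false (i + 1)) + f (v true (i - 1)) + f (v false (i - 1)) := by
  have h1 : v true (i + 1) ≠ v false (i + 1) := fun h => by simpa using (hinj _ _ _ _ h).1
  have h2 : v true (i + 1) ≠ v true (i - 1) := fun h => by have := (hinj _ _ _ _ h).2; omega
  have h3 : v true (i + 1) ≠ v false (i - 1) := fun h => by have := (hinj _ _ _ _ h).2; omega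
  have h4 : v false (i + 1) ≠ v true (i - 1) := fun h => by have := (hinj _ _ _ _ h).2; omega
  have h5 : v false (i + 1) ≠ v false (i - 1) := fun h => by have := (hinj _ _ _ _ h).2; omega
  have h6 : v true (i - 1) ≠ v false (i - 1) := fun h => by simpa using (hinj _ _ _ _ h).1
  rw [Finset.sum_insert (by simp [h1, h2, h3]), Finset.sum_insert (by simp [h4, h5]),
    Finset.sum_insert (by simp [h6]), Finset.sum_singleton]
  ring

theorem lev_pm (hdeg : S_deg) (hN : Net W c)
    (hinj : ∀ b i b' j, v b i = v b' j → b = b' ∧ i = j)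
    (hadj : ∀ b i b' j, W (v b i) (v b' j) ≠ 0 ↔ (j = i + 1 ∨ i = j + 1)) (b b' : Bool) (i j : ℤ)
    (h : j = i + 1 ∨ i = j + 1) : W (v b i) (v b' j) = 1 ∨ W (v b i) (v b' j) = -1 := by
  classical
  have h1 := hdeg V W c hN (v b i) {v true (i + 1), v false (i + 1), v true (i - 1), v false (i - 1)}
  rw [lev_sum hinj] at h1
  have k1 := one_le_sq_int ((hadj b i true (i + 1)).2 (Or.inl rfl))
  have k2 := one_le_sq_int ((hadj b i false (i + 1)).2 (Or.inl rfl))
  have k3 := one_le_sq_int ((hadj b i true (i - 1)).2 (Or.inr (by ring)))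
  have k4 := one_le_sq_int ((hadj b i false (i - 1)).2 (Or.inr (by ring)))
  refine pm_of_sq ?_ ((hadj b i b' j).2 h)
  rcases h with rfl | h
  · cases b' <;> omega
  · obtain rfl : j = i - 1 := by omega
    cases b' <;> omega

theorem lev_closed (hdeg : S_deg) (hN : Net W c)
    (hinj : ∀ b i b' j, v b i = v b' j → b = b' ∧ i = j)
    (hadj : ∀ b i b' j, W (v b i) (v b' j) ≠ 0 ↔ (j = i + 1 ∨ i = j + 1)) (b : Bool) (i : ℤ)
    (w : V) (hw : W (v b i) w ≠ 0) : ∃ b' j, w = v b' j := by
  classical
  by_contra hcon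
  push Not at hcon
  have h1 := hdeg V W c hN (v b i)
    (insert w {v true (i + 1), v false (i + 1), v true (i - 1), v false (i - 1)})
  rw [Finset.sum_insert (by simp [hcon]), lev_sum hinj] at h1
  have k0 := one_le_sq_int hw
  have k1 := one_le_sq_int ((hadj b i true (i + 1)).2 (Or.inl rfl))
  have k2 := one_le_sq_int ((hadj b i false (i + 1)).2 (Or.inl rfl))
  have k3 := one_le_sq_int ((hadj b i true (i - 1)).2 (Or.inr (by ring)))
  have k4 := one_le_sq_int ((hadj b i false (i - 1)).2 (Or.inr (by ring)))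
  omega

theorem lev_neg (hpos : S_pos) (hN : Net W c)
    (hinj : ∀ b i b' j, v b i = v b' j → b = b' ∧ i = j)
    (hadj : ∀ b i b' j, W (v b i) (v b' j) ≠ 0 ↔ (j = i + 1 ∨ i = j + 1)) (b1 b2 b3 : Bool)
    (i : ℤ) : W (v b1 (i - 1)) (v b3 i) * W (v b3 i) (v b2 (i + 1)) *
      W (v b2 (i + 1)) (v (!b3) i) * W (v (!b3) i) (v b1 (i - 1)) < 0 := by
  set r : ℤ → Bool := fun k => if k < i then b1 else if k = i then b3 else b2 with hr
  have hL : Line W (fun k => v (r k) k) :=
    ⟨fun k l h => (hinj _ _ _ _ h).2, fun k l => hadj _ _ _ _⟩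
  have h1 : r (i - 1) = b1 := by simp [hr]
  have h2 : r i = b3 := by simp [hr]
  have h3 : r (i + 1) = b2 := by simp [hr]
  have := hpos V W c hN (fun k => v (r k) k) hL i (v (!b3) i) (fun k h => by
      obtain ⟨ha, hb⟩ := hinj _ _ _ _ h
      subst hb
      rw [h2] at ha
      cases b3 <;> simp at ha) (fun k => by
      rw [hadj]
      omega)
  simp only [h1, h2, h3] at this
  exact this

/-- the products along the two ways from level `i - 1` to level `i + 1` cancel -/
theorem lev_cancel (hdeg : S_deg) (hpos : S_pos) (hN : Net W c)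
    (hinj : ∀ b i b' j, v b i = v b' j → b = b' ∧ i = j)
    (hadj : ∀ b i b' j, W (v b i) (v b' j) ≠ 0 ↔ (j = i + 1 ∨ i = j + 1)) (b1 b2 : Bool)
    (i : ℤ) : W (v b1 (i - 1)) (v true i) * W (v b2 (i + 1)) (v true i) +
      W (v b1 (i - 1)) (v false i) * W (v b2 (i + 1)) (v false i) = 0 := by
  have h := lev_neg hpos hN hinj hadj b1 b2 true i
  rw [Bool.not_true, hN.symm (v true i) (v b2 (i + 1)), hN.symm (v false i) (v b1 (i - 1))] at h
  rcases lev_pm hdeg hN hinj hadj b1 true (i - 1) i (Or.inl (by ring)) with h1 | h1 <;>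
    rcases lev_pm hdeg hN hinj hadj b1 false (i - 1) i (Or.inl (by ring)) with h2 | h2 <;>
    rcases lev_pm hdeg hN hinj hadj b2 true (i + 1) i (Or.inr rfl) with h3 | h3 <;>
    rcases lev_pm hdeg hN hinj hadj b2 false (i + 1) i (Or.inr rfl) with h4 | h4 <;>
    rw [h1, h2, h3, h4] at h <;> rw [h1, h2, h3, h4] <;> (revert h; norm_num)

/-- the two vertices of a level are orthogonal -/
theorem lev_same (hdeg : S_deg) (hpos : S_pos) (hN : Net W c)
    (hinj : ∀ b i b' j, v b i = v b' j → b = b' ∧ i = j)
    (hadj : ∀ b i b' j, W (v b i) (v b' j) ≠ 0 ↔ (j = i + 1 ∨ i = j + 1)) (i : ℤ) :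
    W (v true i) (v true (i + 1)) * W (v false i) (v true (i + 1)) +
    W (v true i) (v false (i + 1)) * W (v false i) (v false (i + 1)) +
    W (v true i) (v true (i - 1)) * W (v false i) (v true (i - 1)) +
    W (v true i) (v false (i - 1)) * W (v false i) (v false (i - 1)) = 0 := by
  have c1 := lev_cancel hdeg hpos hN hinj hadj true true i
  have c2 := lev_cancel hdeg hpos hN hinj hadj true false i
  have c3 := lev_cancel hdeg hpos hN hinj hadj false true i
  have c4 := lev_cancel hdeg hpos hN hinj hadj false false i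
  rw [hN.symm (v true (i - 1)) (v true i), hN.symm (v true (i + 1)) (v true i),
    hN.symm (v true (i - 1)) (v false i), hN.symm (v true (i + 1)) (v false i)] at c1
  rw [hN.symm (v true (i - 1)) (v true i), hN.symm (v false (i + 1)) (v true i),
    hN.symm (v true (i - 1)) (v false i), hN.symm (v false (i + 1)) (v false i)] at c2
  rw [hN.symm (v false (i - 1)) (v true i), hN.symm (v true (i + 1)) (v true i),
    hN.symm (v false (i - 1)) (v false i), hN.symm (v true (i + 1)) (v false i)] at c3
  rw [hN.symm (v false (i - 1)) (v true i), hN.symm (v false (i + 1)) (v true i),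
    hN.symm (v false (i - 1)) (v false i), hN.symm (v false (i + 1)) (v false i)] at c4
  rcases lev_pm hdeg hN hinj hadj true true i (i + 1) (Or.inl rfl) with h1 | h1 <;>
    rcases lev_pm hdeg hN hinj hadj false true i (i + 1) (Or.inl rfl) with h2 | h2 <;>
    rcases lev_pm hdeg hN hinj hadj true false i (i + 1) (Or.inl rfl) with h3 | h3 <;>
    rcases lev_pm hdeg hN hinj hadj false false i (i + 1) (Or.inl rfl) with h4 | h4 <;>
    rcases lev_pm hdeg hN hinj hadj true true i (i - 1) (Or.inr (by ring)) with h5 | h5 <;>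
    rcases lev_pm hdeg hN hinj hadj true false i (i - 1) (Or.inr (by ring)) with h6 | h6 <;>
    rw [h1, h2, h5] at c1 <;> rw [h3, h4, h5] at c2 <;> rw [h1, h2, h6] at c3 <;>
    rw [h3, h4, h6] at c4 <;> rw [h1, h2, h3, h4, h5, h6] <;> omega

open Classical in
theorem lev_main (hdeg : S_deg) (hpos : S_pos) (hN : Net W c)
    (hinj : ∀ b i b' j, v b i = v b' j → b = b' ∧ i = j)
    (hadj : ∀ b i b' j, W (v b i) (v b' j) ≠ 0 ↔ (j = i + 1 ∨ i = j + 1)) (b : Bool) (i : ℤ)
    (u' : V) (S : Finset V) (hS : ∀ w, W (v b i) w ≠ 0 → w ∈ S) :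
    ∑ w ∈ S, W (v b i) w * W u' w = if v b i = u' then 4 else 0 := by
  have hsub : ({v true (i + 1), v false (i + 1), v true (i - 1), v false (i - 1)} : Finset V) ⊆ S := by
    intro w hw
    simp only [Finset.mem_insert, Finset.mem_singleton] at hw
    rcases hw with rfl | rfl | rfl | rfl
    · exact hS _ ((hadj _ _ _ _).2 (Or.inl rfl))
    · exact hS _ ((hadj _ _ _ _).2 (Or.inl rfl))
    · exact hS _ ((hadj _ _ _ _).2 (Or.inr (by ring)))
    · exact hS _ ((hadj _ _ _ _).2 (Or.inr (by ring)))
  rw [← Finset.sum_subset hsub, lev_sum hinj]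
  · by_cases hu : ∃ b' j, u' = v b' j
    · obtain ⟨b', j, rfl⟩ := hu
      by_cases hji : j = i
      · subst hji
        by_cases hbb : b = b'
        · subst hbb
          rw [if_pos rfl]
          rcases lev_pm hdeg hN hinj hadj b true j (j + 1) (Or.inl rfl) with h1 | h1 <;>
            rcases lev_pm hdeg hN hinj hadj b false j (j + 1) (Or.inl rfl) with h2 | h2 <;>
            rcases lev_pm hdeg hN hinj hadj b true j (j - 1) (Or.inr (by ring)) with h3 | h3 <;>
            rcases lev_pm hdeg hN hinj hadj b false j (j - 1) (Or.inr (by ring)) with h4 | h4 <;>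
            rw [h1, h2, h3, h4] <;> norm_num
        · rw [if_neg (fun h => hbb (hinj _ _ _ _ h).1)]
          have hs := lev_same hdeg hpos hN hinj hadj j
          cases b <;> cases b'
          · exact absurd rfl hbb
          · linear_combination hs
          · linear_combination hs
          · exact absurd rfl hbb
      · rw [if_neg (fun h => hji (hinj _ _ _ _ h).2.symm)]
        have zero : ∀ x k, ¬ (k = j + 1 ∨ j = k + 1) → W (v b' j) (v x k) = 0 := by
          intro x k hk
          by_contra h
          exact hk ((hadj _ _ _ _).1 h)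
        by_cases hj2 : j = i + 2
        · subst hj2
          rw [zero true (i - 1) (by omega), zero false (i - 1) (by omega)]
          have hc := lev_cancel hdeg hpos hN hinj hadj b b' (i + 1)
          rw [show i + 1 - 1 = i by ring, show i + 1 + 1 = i + 2 by ring] at hc
          linear_combination hc
        · by_cases hj3 : j = i - 2
          · subst hj3
            rw [zero true (i + 1) (by omega), zero false (i + 1) (by omega)]
            have hc := lev_cancel hdeg hpos hN hinj hadj b' b (i - 1)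
            rw [show i - 1 - 1 = i - 2 by ring, show i - 1 + 1 = i by ring] at hc
            linear_combination hc
          · rw [zero true (i - 1) (by omega), zero false (i - 1) (by omega),
              zero true (i + 1) (by omega), zero false (i + 1) (by omega)]
            ring
    · rw [if_neg (fun h => hu ⟨b, i, h.symm⟩)]
      have zero : ∀ x k, W u' (v x k) = 0 := by
        intro x k
        by_contra h
        rw [hN.symm] at h
        exact hu (lev_closed hdeg hN hinj hadj x k u' h)
      rw [zero, zero, zero, zero]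
      ring
  · intro w _ hw
    by_cases h : W (v b i) w = 0
    · rw [h, zero_mul]
    · exfalso
      obtain ⟨b', j, rfl⟩ := lev_closed hdeg hN hinj hadj b i w h
      apply hw
      rcases (hadj _ _ _ _).1 h with h' | h'
      · subst h'
        cases b' <;> simp
      · obtain rfl : j = i - 1 := by omega
        cases b' <;> simp

end lev

theorem t_tor : S_deg → S_pos → S_conn → S_all → S_typ → S_lad → S_tor := by
  classical
  intro hdeg hpos hconn hall htyp hlad V W c hN p q hp hq hd hc
  obtain ⟨ε, a₀, hε, hT⟩ := hlad V W c hN p q hp hq hd (htyp V W c hN p q hp hq hd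
    (hall V W c hN p q hp hq hd (hconn V W c hN p q hp hq hd hc)))
  have hεε : ε * ε = 1 := by
    rcases hε with rfl | rfl <;> norm_num
  set v : Bool → ℤ → V := fun b => if b = true then p else fun i => q (ε * (i - a₀)) with hv
  have vt : ∀ i, v true i = p i := fun i => by simp [hv]
  have vf : ∀ i, v false i = q (ε * (i - a₀)) := fun i => by simp [hv]
  have hpq : ∀ i j, W (p i) (q (ε * (j - a₀))) ≠ 0 ↔ (i = j - 1 ∨ i = j + 1) := by
    intro i j
    have := hT (ε * (j - a₀)) i
    rwa [← mul_assoc, hεε, one_mul, add_sub_cancel] at this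
  have hinj : ∀ b i b' j, v b i = v b' j → b = b' ∧ i = j := by
    intro b i b' j h
    cases b <;> cases b'
    · rw [vf, vf] at h
      refine ⟨rfl, ?_⟩
      have := hq.inj h
      rcases hε with rfl | rfl <;> omega
    · rw [vf, vt] at h
      exact absurd h.symm (hd _ _)
    · rw [vf, vt] at h
      exact absurd h (hd _ _)
    · rw [vt, vt] at h
      exact ⟨rfl, hp.inj h⟩
  have hadj : ∀ b i b' j, W (v b i) (v b' j) ≠ 0 ↔ (j = i + 1 ∨ i = j + 1) := by
    intro b i b' j
    cases b <;> cases b'
    · rw [vf, vf, hq.adj]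
      rcases hε with rfl | rfl <;> omega
    · rw [vf, vt, hN.symm, hpq]
      omega
    · rw [vf, vt, hpq]
      omega
    · rw [vt, vt, hp.adj]
  have hmem : ∀ u, u ∈ Set.range p ∪ Set.range q ↔ ∃ b i, u = v b i := by
    intro u
    constructor
    · rintro (⟨i, rfl⟩ | ⟨s, rfl⟩)
      · exact ⟨true, i, (vt i).symm⟩
      · refine ⟨false, a₀ + ε * s, ?_⟩
        rw [vf, add_sub_cancel_left, ← mul_assoc, hεε, one_mul]
    · rintro ⟨b, i, rfl⟩
      cases b
      · rw [vf]
        exact Or.inr ⟨_, rfl⟩
      · rw [vt]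
        exact Or.inl ⟨_, rfl⟩
  refine ⟨fun u w hu hw => ?_, fun u hu u' S hS => ?_⟩
  · rw [hmem] at hu ⊢
    obtain ⟨b, i, rfl⟩ := hu
    exact lev_closed hdeg hN hinj hadj b i w hw
  · rw [hmem] at hu
    obtain ⟨b, i, rfl⟩ := hu
    exact lev_main hdeg hpos hN hinj hadj b i u' S hS

end Pool.Agent.Q175.BD
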