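import Pool.Agent.Q181.BD.Stm1

set_option autoImplicit false

/-! Project BD (helper181), job TRI: no infinite path off the line. -/

namespace Pool.Agent.Q175.BD

open Pool.Agent.Q181.BD

variable {V : Type} {W : V → V → ℤ} {c : ℝ} {p : ℤ → V}

theorem one_le_abs_cast {a : ℤ} (h : a ≠ 0) : (1 : ℝ) ≤ |(a : ℝ)| := by
  have h1 : 1 ≤ |a| := Int.one_le_abs h
  have h2 : ((1 : ℤ) : ℝ) ≤ ((|a| : ℤ) : ℝ) := by exact_mod_cast h1
  simpa using h2

theorem tripod_false (hN : Net W c) (a : Fin 3 → ℕ → V) (o : V) (h0 : ∀ i, a i 0 = o)
    (hinj : ∀ i j k l, a i k = a j l → (k = 0 ∧ l = 0) ∨ (i = j ∧ k = l))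
    (hW0 : ∀ i k l, W (a i k) (a i l) ≠ 0 ↔ (l = k + 1 ∨ k = l + 1))
    (hWc : ∀ i j k l, i ≠ j → 1 ≤ k → 1 ≤ l → W (a i k) (a j l) = 0) : False := by
  classical
  have ht0 : 0 < 1 / Real.sqrt 2 := by positivity
  have ht : (1 / Real.sqrt 2) ^ 2 = 1 / 2 := by
    rw [div_pow, Real.sq_sqrt (by norm_num)]; norm_num
  have hlt : c < 3 * (1 / Real.sqrt 2) := by
    have := hN.lt
    rwa [div_eq_mul_one_div] at this
  have key : ∀ N : ℕ, 3 * (1 / Real.sqrt 2) * (1 - (1 / 2) ^ N) * 4 ≤ c * (4 - 3 * (1 / 2) ^ N) := by
    intro N
    refine TH57.Thr.tripod_bound (fun u v => (W u v : ℝ)) (fun u v => by rw [hN.symm]) c hN.form N a o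
      h0 (fun i j k l _ _ h => hinj i j k l h) ?_ ?_ ?_ _ ht0 ht
    · intro i k l _ _ h1 h2
      have h3 : W (a i k) (a i l) = 0 := by
        by_contra h
        rcases (hW0 i k l).1 h with h | h
        · exact h1 h.symm
        · exact h2 h.symm
      simp [h3]
    · intro i j k l hij hk _ hl _
      simp [hWc i j k l hij hk hl]
    · intro i k _
      exact one_le_abs_cast ((hW0 i k (k + 1)).2 (Or.inl rfl))
  set t : ℝ := 1 / Real.sqrt 2 with htdef
  have hpos : 0 < 12 * t - 4 * c := by linarith
  have hC : 0 < |12 * t - 3 * c| + 1 := by positivity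
  obtain ⟨N, hNN⟩ := exists_pow_lt_of_lt_one (div_pos hpos hC) (show (1 / 2 : ℝ) < 1 by norm_num)
  rw [lt_div_iff₀ hC] at hNN
  have h1 := key N
  have h2 : (0 : ℝ) < (1 / 2) ^ N := by positivity
  have h3 := le_abs_self (12 * t - 3 * c)
  nlinarith

theorem tripod3 (hN : Net W c) (x y z : ℕ → V) (hy0 : y 0 = x 0) (hz0 : z 0 = x 0)
    (ix : Function.Injective x) (iy : Function.Injective y) (iz : Function.Injective z)
    (ax : ∀ k l, W (x k) (x l) ≠ 0 ↔ (l = k + 1 ∨ k = l + 1))
    (ay : ∀ k l, W (y k) (y l) ≠ 0 ↔ (l = k + 1 ∨ k = l + 1))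
    (az : ∀ k l, W (z k) (z l) ≠ 0 ↔ (l = k + 1 ∨ k = l + 1))
    (dxy : ∀ k l, x (k + 1) ≠ y (l + 1)) (dxz : ∀ k l, x (k + 1) ≠ z (l + 1))
    (dyz : ∀ k l, y (k + 1) ≠ z (l + 1))
    (wxy : ∀ k l, W (x (k + 1)) (y (l + 1)) = 0) (wxz : ∀ k l, W (x (k + 1)) (z (l + 1)) = 0)
    (wyz : ∀ k l, W (y (k + 1)) (z (l + 1)) = 0) : False := by
  have gen : ∀ (f g : ℕ → V), Function.Injective f → Function.Injective g → f 0 = g 0 →
      (∀ k l, f (k + 1) ≠ g (l + 1)) → ∀ k l, f k = g l → k = 0 ∧ l = 0 := by
    intro f g hf hg h0 hd k l h
    rcases k with _ | k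
    · rw [h0] at h
      exact ⟨rfl, (hg h).symm⟩
    · rcases l with _ | l
      · rw [← h0] at h
        exact absurd (hf h) (by omega)
      · exact absurd h (hd k l)
  have hs : ∀ (f g : ℕ → V), (∀ k l, W (f (k + 1)) (g (l + 1)) = 0) → ∀ k l, 1 ≤ k → 1 ≤ l →
      W (f k) (g l) = 0 := by
    intro f g h k l hk hl
    obtain ⟨k, rfl⟩ := Nat.exists_eq_add_of_le' hk
    obtain ⟨l, rfl⟩ := Nat.exists_eq_add_of_le' hl
    exact h k l
  have hs' : ∀ (f g : ℕ → V), (∀ k l, W (f (k + 1)) (g (l + 1)) = 0) → ∀ k l, 1 ≤ k → 1 ≤ l →
      W (g k) (f l) = 0 := by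
    intro f g h k l hk hl
    rw [hN.symm]
    exact hs f g h l k hl hk
  refine tripod_false hN ![x, y, z] (x 0) ?_ ?_ ?_ ?_
  · intro i
    fin_cases i
    · rfl
    · exact hy0
    · exact hz0
  · intro i j k l h
    fin_cases i <;> fin_cases j
    · exact Or.inr ⟨rfl, ix h⟩
    · exact Or.inl (gen x y ix iy hy0.symm dxy k l h)
    · exact Or.inl (gen x z ix iz hz0.symm dxz k l h)
    · exact Or.inl (gen y x iy ix hy0 (fun k l h => dxy l k h.symm) k l h)
    · exact Or.inr ⟨rfl, iy h⟩
    · exact Or.inl (gen y z iy iz (hy0.trans hz0.symm) dyz k l h)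
    · exact Or.inl (gen z x iz ix hz0 (fun k l h => dxz l k h.symm) k l h)
    · exact Or.inl (gen z y iz iy (hz0.trans hy0.symm) (fun k l h => dyz l k h.symm) k l h)
    · exact Or.inr ⟨rfl, iz h⟩
  · intro i k l
    fin_cases i
    · exact ax k l
    · exact ay k l
    · exact az k l
  · intro i j k l hij hk hl
    fin_cases i <;> fin_cases j
    · exact absurd rfl hij
    · exact hs x y wxy k l hk hl
    · exact hs x z wxz k l hk hl
    · exact hs' x y wxy k l hk hl
    · exact absurd rfl hij
    · exact hs y z wyz k l hk hl
    · exact hs' x z wxz k l hk hl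
    · exact hs' y z wyz k l hk hl
    · exact absurd rfl hij

theorem t_tri : S_two → S_tri := by
  intro h2 V W c hN p hp q hoff hinj hadj hex hfree
  obtain ⟨i0, hi0⟩ := hex
  -- choose the least neighbour
  have hex2 : ∃ i, W (p i) (q 0) ≠ 0 ∧ ∀ k, W (p k) (q 0) ≠ 0 → k = i ∨ k = i + 2 := by
    by_cases h : ∃ j, W (p j) (q 0) ≠ 0 ∧ j < i0
    · obtain ⟨j, hj, hlt⟩ := h
      refine ⟨j, hj, fun k hk => ?_⟩
      rcases le_total j k with h' | h'
      · exact h2 V W c hN p hp _ j k (hoff 0) hj hk h'
      · have e1 := h2 V W c hN p hp _ j i0 (hoff 0) hj hi0 hlt.le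
        have e2 := h2 V W c hN p hp _ k j (hoff 0) hk hj h'
        have e3 := h2 V W c hN p hp _ k i0 (hoff 0) hk hi0 (h'.trans hlt.le)
        omega
    · refine ⟨i0, hi0, fun k hk => ?_⟩
      have : i0 ≤ k := by
        by_contra hlt
        exact h ⟨k, hk, by omega⟩
      exact h2 V W c hN p hp _ i0 k (hoff 0) hi0 hk this
  obtain ⟨i, hi, hmax⟩ := hex2
  by_cases hs : W (p (i + 2)) (q 0) ≠ 0
  · -- centre `q 0`
    refine tripod3 hN (fun k => if k = 0 then q 0 else p (i + 1 - k))
      (fun k => if k = 0 then q 0 else p (i + 1 + k)) q (by simp) (by simp) ?_ ?_ hinj ?_ ?_ hadj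
      ?_ ?_ ?_ ?_ ?_ ?_
    · intro k l h
      dsimp only at h
      by_cases hk : k = 0 <;> by_cases hl : l = 0
      · omega
      · rw [if_pos hk, if_neg hl] at h
        exact absurd h.symm (hoff 0 _)
      · rw [if_neg hk, if_pos hl] at h
        exact absurd h (hoff 0 _)
      · rw [if_neg hk, if_neg hl] at h
        have := hp.inj h
        omega
    · intro k l h
      dsimp only at h
      by_cases hk : k = 0 <;> by_cases hl : l = 0
      · omega
      · rw [if_pos hk, if_neg hl] at h
        exact absurd h.symm (hoff 0 _)
      · rw [if_neg hk, if_pos hl] at h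
        exact absurd h (hoff 0 _)
      · rw [if_neg hk, if_neg hl] at h
        have := hp.inj h
        omega
    · intro k l
      try dsimp only
      by_cases hk : k = 0 <;> by_cases hl : l = 0
      · rw [if_pos hk, if_pos hl]
        simp only [hN.loop, ne_eq, not_true_eq_false, false_iff]
        omega
      · rw [if_pos hk, if_neg hl, hN.symm]
        constructor
        · intro h
          have := hmax _ h
          omega
        · intro h
          have : l = 1 := by omega
          rw [this]
          simpa using hi
      · rw [if_neg hk, if_pos hl]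
        constructor
        · intro h
          have := hmax _ h
          omega
        · intro h
          have : k = 1 := by omega
          rw [this]
          simpa using hi
      · rw [if_neg hk, if_neg hl, hp.adj]
        omega
    · intro k l
      try dsimp only
      by_cases hk : k = 0 <;> by_cases hl : l = 0
      · rw [if_pos hk, if_pos hl]
        simp only [hN.loop, ne_eq, not_true_eq_false, false_iff]
        omega
      · rw [if_pos hk, if_neg hl, hN.symm]
        constructor
        · intro h
          have := hmax _ h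
          omega
        · intro h
          have : l = 1 := by omega
          rw [this, show i + 1 + ((1 : ℕ) : ℤ) = i + 2 by push_cast; ring]
          exact hs
      · rw [if_neg hk, if_pos hl]
        constructor
        · intro h
          have := hmax _ h
          omega
        · intro h
          have : k = 1 := by omega
          rw [this, show i + 1 + ((1 : ℕ) : ℤ) = i + 2 by push_cast; ring]
          exact hs
      · rw [if_neg hk, if_neg hl, hp.adj]
        omega
    · intro k l h
      try dsimp only at h
      rw [if_neg (by omega), if_neg (by omega)] at h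
      have := hp.inj h
      omega
    · intro k l h
      try dsimp only at h
      rw [if_neg (by omega)] at h
      exact hoff _ _ h
    · intro k l h
      try dsimp only at h
      rw [if_neg (by omega)] at h
      exact hoff _ _ h
    · intro k l
      try dsimp only
      rw [if_neg (by omega), if_neg (by omega)]
      by_contra h
      have := (hp.adj _ _).1 h
      omega
    · intro k l
      try dsimp only
      rw [if_neg (by omega)]
      exact hfree _ (by omega) _
    · intro k l
      try dsimp only
      rw [if_neg (by omega)]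
      exact hfree _ (by omega) _
  · have hone : ∀ k, W (p k) (q 0) ≠ 0 ↔ k = i := by
      intro k
      constructor
      · intro h
        rcases hmax k h with h' | h'
        · exact h'
        · rw [h'] at h
          exact absurd h hs
      · rintro rfl
        exact hi
    -- centre `p i`
    refine tripod3 hN (fun k => p (i - k)) (fun k => p (i + k))
      (fun k => if k = 0 then p i else q (k - 1)) (by simp) (by simp) ?_ ?_ ?_ ?_ ?_ ?_
      ?_ ?_ ?_ ?_ ?_ ?_
    · intro k l h
      have := hp.inj h
      omega
    · intro k l h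
      have := hp.inj h
      omega
    · intro k l h
      dsimp only at h
      by_cases hk : k = 0 <;> by_cases hl : l = 0
      · omega
      · rw [if_pos hk, if_neg hl] at h
        exact absurd h (hoff _ _)
      · rw [if_neg hk, if_pos hl] at h
        exact absurd h.symm (hoff _ _)
      · rw [if_neg hk, if_neg hl] at h
        have := hinj h
        omega
    · intro k l
      rw [hp.adj]
      omega
    · intro k l
      rw [hp.adj]
      omega
    · intro k l
      try dsimp only
      by_cases hk : k = 0 <;> by_cases hl : l = 0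
      · rw [if_pos hk, if_pos hl]
        simp only [hN.loop, ne_eq, not_true_eq_false, false_iff]
        omega
      · rw [if_pos hk, if_neg hl]
        constructor
        · intro h
          by_contra hne
          exact h (hfree (l - 1) (by omega) _)
        · intro h
          have : l - 1 = 0 := by omega
          rw [this]
          exact hi
      · rw [if_neg hk, if_pos hl, hN.symm]
        constructor
        · intro h
          by_contra hne
          exact h (hfree (k - 1) (by omega) _)
        · intro h
          have : k - 1 = 0 := by omega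
          rw [this]
          exact hi
      · rw [if_neg hk, if_neg hl, hadj]
        omega
    · intro k l h
      have := hp.inj h
      omega
    · intro k l h
      try dsimp only at h
      rw [if_neg (by omega)] at h
      exact hoff _ _ h
    · intro k l h
      try dsimp only at h
      rw [if_neg (by omega)] at h
      exact hoff _ _ h
    · intro k l
      by_contra h
      have := (hp.adj _ _).1 h
      omega
    · intro k l
      try dsimp only
      rw [if_neg (by omega)]
      rcases Nat.eq_zero_or_pos l with hl | hl
      · subst hl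
        by_contra h
        have := (hone _).1 h
        omega
      · exact hfree _ (by omega) _
    · intro k l
      try dsimp only
      rw [if_neg (by omega)]
      rcases Nat.eq_zero_or_pos l with hl | hl
      · subst hl
        by_contra h
        have := (hone _).1 h
        omega
      · exact hfree _ (by omega) _

end Pool.Agent.Q175.BD
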