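import Pool.Agent.Q175.BD.Com

set_option autoImplicit false

/-! Project BD (helper181), job TYP. -/

namespace Pool.Agent.Q175.BD

open Pool.Agent.Q181.BD

variable {V : Type} {W : V → V → ℤ} {c : ℝ}

theorem typ_core (h2 : S_two) (hs : S_sub) (h4 : S_opp) (hN : Net W c) (p q : ℤ → V)
    (hp : Line W p) (hq : Line W q) (hd : Dis p q) (hall : ∀ s, ¬ Free W p (q s))
    (h0 : One W p (q 0) 0) (j : ℤ) (hj3 : 3 ≤ j) (hj : W (p j) (q 1) ≠ 0)
    (hm1 : One W p (q (-1)) (-1)) : False := by
  obtain ⟨ε, η, hε, hη, ⟨j', hj'3, hj'⟩, ho⟩ := h4 V W c hN (fun k => p (k + (-1)))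
    (fun k => q (k + (-1))) (hp.shift _) (hq.shift _) (fun _ _ => hd _ _)
    (fun s h => hall (s + (-1)) (fun i => by
      have := h (i + 1)
      simpa using this))
    (by simpa using hm1.shift (-1))
  rcases hη with rfl | rfl
  · have : W (p (ε * j' + (-1))) (q 0) ≠ 0 := by simpa using hj'
    have := (h0 _).1 this
    rcases hε with rfl | rfl <;> omega
  · have e1 := ho (-ε)
    have e2 : W (p (-ε + (-1))) (q 0) ≠ 0 := by
      have := e1.2 rfl
      simpa using this
    have e3 := (h0 _).1 e2
    have hε' : ε = -1 := by omega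
    subst hε'
    have e4 : W (p (-1 * j' + (-1))) (q (-2)) ≠ 0 := by
      have := hj'
      simpa using this
    -- the neighbours of `q (-2)`
    obtain ⟨m, hm, hmax, hm4⟩ : ∃ m, W (p m) (q (-2)) ≠ 0 ∧
        (∀ k, W (p k) (q (-2)) ≠ 0 → k = m ∨ k = m + 2) ∧ m ≤ -4 := by
      rcases nbr_cases h2 hN hp (u := q (-2)) (fun i => hd i _) ⟨_, e4⟩ with ⟨b, hb⟩ | ⟨a, ha⟩
      · have := (hb _).1 e4
        exact ⟨b, (hb b).2 rfl, fun k hk => Or.inl ((hb k).1 hk), by omega⟩
      · have := (ha _).1 e4
        refine ⟨a - 1, (ha _).2 (Or.inl rfl), fun k hk => ?_, by omega⟩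
        have := (ha k).1 hk
        omega
    have hX : Line W (sur p m 0 3 (fun k => q (-3 + k))) := by
      refine hs V W hN.symm p hp m 0 3 _ (by omega) (by norm_num) (arm_line hq hd _ _) ?_
      intro k i hk1 hk3 hi
      obtain rfl | rfl | rfl : k = 1 ∨ k = 2 ∨ k = 3 := by omega
      · rw [show (-3 : ℤ) + ((1 : ℕ) : ℤ) = -2 by norm_num]
        constructor
        · intro h
          have := hmax i h
          omega
        · intro h
          have : i = m := by omega
          rw [this]
          exact hm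
      · rw [show (-3 : ℤ) + ((2 : ℕ) : ℤ) = -1 by norm_num, hm1 i]
        omega
      · rw [show (-3 : ℤ) + ((3 : ℕ) : ℤ) = 0 by norm_num, h0 i]
        omega
    have hoff : Off (sur p m 0 3 (fun k => q (-3 + k))) (q 1) := by
      intro i
      rcases sur_cases p m 0 3 (fun k => q (-3 + k)) i with ⟨_, h⟩ | ⟨k, _, hk, _, h⟩ | ⟨l, _, _, h⟩
      · rw [h]
        exact hd _ _
      · rw [h]
        intro h'
        have := hq.inj h'
        omega
      · rw [h]
        exact hd _ _
    have w1 : W (sur p m 0 3 (fun k => q (-3 + k)) (m + (3 : ℕ))) (q 1) ≠ 0 := by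
      rw [sur_mid p m 0 3 (fun k => q (-3 + k)) 3 (by norm_num) le_rfl, hq.adj]
      norm_num
    have w2 : W (sur p m 0 3 (fun k => q (-3 + k)) (j - 0 + m + (3 : ℕ) + 1)) (q 1) ≠ 0 := by
      rw [sur_ge p m 0 3 (fun k => q (-3 + k)) j (by omega)]
      exact hj
    have := h2 V W c hN _ hX (q 1) _ _ hoff w1 w2 (by push_cast; omega)
    push_cast at this
    omega

theorem t_typ : S_two → S_sub → S_opp → S_typ := by
  intro h2 hs h4 V W c hN p q hp hq hd hall s
  have hne : ∃ i, W (p i) (q s) ≠ 0 := by
    have := hall s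
    unfold Free at this
    push Not at this
    exact this
  rcases nbr_cases h2 hN hp (u := q s) (fun i => hd i _) hne with ⟨b, hb⟩ | h
  · exfalso
    have hp' : Line W (fun k => p (k + b)) := hp.shift b
    have hq' : Line W (fun k => q (k + s)) := hq.shift s
    have h0 : One W (fun k => p (k + b)) (q (0 + s)) 0 := by
      rw [zero_add]
      simpa using hb.shift b
    have hall' : ∀ k, ¬ Free W (fun k => p (k + b)) (q (k + s)) := by
      intro k h
      refine hall (k + s) (fun i => ?_)
      have := h (i - b)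
      simpa using this
    obtain ⟨ε, η, hε, hη, ⟨j, hj3, hj⟩, ho⟩ := h4 V W c hN (fun k => p (k + b))
      (fun k => q (k + s)) hp' hq' (fun _ _ => hd _ _) hall' h0
    rcases hε with rfl | rfl <;> rcases hη with rfl | rfl
    · exact typ_core h2 hs h4 hN (fun k => p (k + b)) (fun k => q (k + s)) hp' hq'
        (fun _ _ => hd _ _) hall' h0 j hj3 (by simpa using hj) (by simpa using ho)
    · refine typ_core h2 hs h4 hN (fun k => p (k + b)) (fun k => q (-k + s)) hp' hq'.rev
        (fun _ _ => hd _ _) (fun k => hall' (-k)) (by simpa using h0) j hj3 (by simpa using hj)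
        (by simpa using ho)
    · refine typ_core h2 hs h4 hN (fun k => p (-k + b)) (fun k => q (k + s)) hp'.rev hq'
        (fun _ _ => hd _ _) (fun k h => hall' k ?_) (by simpa using h0.rev) j hj3
        (by simpa using hj) (by simpa using ho.rev)
      intro i
      have := h (-i)
      simpa using this
    · refine typ_core h2 hs h4 hN (fun k => p (-k + b)) (fun k => q (-k + s)) hp'.rev hq'.rev
        (fun _ _ => hd _ _) (fun k h => hall' (-k) ?_) (by simpa using h0.rev) j hj3
        (by simpa using hj) (by simpa using ho.rev)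
      intro i
      have := h (-i)
      simpa using this
  · exact h

end Pool.Agent.Q175.BD
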